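import Pool.Agent.H466.HE.SB
import Pool.Agent.H466.HP.H10
import Pool.Agent.H333.HP.Mono

/-!
# HE-UNI: uniform distribution in the strip (subtask 10108 of helper466)
-/

set_option autoImplicit false

namespace Pool.Agent.H807.HE

open Complex MeasureTheory Set Filter Topology
open scoped ComplexConjugate
open Pool.Agent.H466.HF Pool.Agent.H466.LD Pool.Agent.H466.HP Pool.Agent.H466.HN Pool.Agent.H466.HD
open Pool.Agent.H466.HE
open Pool.Agent.H333.HP (neg_conj_neg_conj re_nc im_nc)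

theorem diff_LL (lam : ℝ) : Differentiable ℂ (LL gk lam) := by
  obtain ⟨A, K, μ0, Q, T00, -, -, -, k, -⟩ := far_data
  exact k.differentiable lam

theorem ord_sym (lam : ℝ) (b : ℂ) :
    analyticOrderNatAt (LL gk lam) (-(conj b)) = analyticOrderNatAt (LL gk lam) b := by
  unfold analyticOrderNatAt
  rw [Pool.Agent.NH13.UV.yh.order_rf (diff_LL lam) (Flam_fe lam) b]

theorem zero_sym (lam : ℝ) {b : ℂ} (h : LL gk lam b = 0) : LL gk lam (-(conj b)) = 0 := by
  rw [Flam_fe, h, map_zero]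

/-- sum of the multiplicities over a reflected set -/
theorem sum_refl (lam : ℝ) (S : Finset ℂ) :
    ∑ z ∈ S.image (fun b => -(conj b)), (analyticOrderNatAt (LL gk lam) z : ℝ) =
      ∑ z ∈ S, (analyticOrderNatAt (LL gk lam) z : ℝ) := by
  rw [Finset.sum_image]
  · exact Finset.sum_congr rfl fun b _ => by rw [ord_sym]
  · intro a _ b _ h
    have h2 : -(conj (-(conj a))) = -(conj (-(conj b))) := by
      have h3 : -(conj a) = -(conj b) := h
      rw [h3]
    rwa [neg_conj_neg_conj, neg_conj_neg_conj] at h2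

/-- two sides -/
theorem two_sided {lam T x y B : ℝ}
    (hU : ∀ S : Finset ℂ, (∀ z ∈ S, LL gk lam z = 0 ∧ T ≤ z.im ∧ z.im ≤ 2 * T ∧
        x ≤ z.re ∧ z.re ≤ y) → ∑ z ∈ S, (analyticOrderNatAt (LL gk lam) z : ℝ) ≤ B)
    (S : Finset ℂ) (hS : ∀ z ∈ S, LL gk lam z = 0 ∧ T ≤ z.im ∧ z.im ≤ 2 * T ∧
        x ≤ |z.re| ∧ |z.re| ≤ y) :
    ∑ z ∈ S, (analyticOrderNatAt (LL gk lam) z : ℝ) ≤ 2 * B := by
  have h1 := hU (S.filter (fun z => 0 ≤ z.re)) (by
    intro z hz
    rw [Finset.mem_filter] at hz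
    obtain ⟨a1, a2, a3, a4, a5⟩ := hS z hz.1
    rw [abs_of_nonneg hz.2] at a4 a5
    exact ⟨a1, a2, a3, a4, a5⟩)
  have h2 := hU ((S.filter (fun z => ¬ 0 ≤ z.re)).image (fun b => -(conj b))) (by
    intro z hz
    rw [Finset.mem_image] at hz
    obtain ⟨b, hb, rfl⟩ := hz
    rw [Finset.mem_filter] at hb
    obtain ⟨a1, a2, a3, a4, a5⟩ := hS b hb.1
    rw [abs_of_neg (not_le.1 hb.2)] at a4 a5
    rw [im_nc, re_nc]
    exact ⟨zero_sym lam a1, a2, a3, a4, a5⟩)
  rw [sum_refl] at h2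
  have h3 := Finset.sum_filter_add_sum_filter_not S (fun z : ℂ => 0 ≤ z.re)
    (fun z => (analyticOrderNatAt (LL gk lam) z : ℝ))
  linarith

/-- **UNI** -/
theorem uni (h1 : S_UPP) (h2 : S_TLBg) (h3 : S_OUT) : S_UNI := by
  intro ε hε
  have hπ := Real.pi_pos
  obtain ⟨ε', A1, δ1, T1, hε', hA1, hδ1, hT1, hU⟩ := h1 (ε / 8) (by positivity)
  obtain ⟨R0, δ2, T2, hR0, hδ2, hT2, hL⟩ := h2 (ε / 8) (by positivity)
  set ε2 : ℝ := min (min ε' 1) (ε / 8 / (2 * Real.pi)) with hε2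
  have e1 : 0 < ε2 := lt_min (lt_min hε' one_pos) (by positivity)
  have e2 : ε2 ≤ ε' := (min_le_left _ _).trans (min_le_left _ _)
  have e3 : ε2 ≤ 1 := (min_le_left _ _).trans (min_le_right _ _)
  have e4 : ε2 ≤ ε / 8 / (2 * Real.pi) := min_le_right _ _
  obtain ⟨A3, δ3, T3, hA3, hδ3, hT3, hO⟩ := h3 ε2 R0 e1 e3 hR0
  refine ⟨max A1 A3, min δ1 (min δ2 δ3), max T1 (max T2 T3), hA1.trans (le_max_left _ _),
    lt_min hδ1 (lt_min hδ2 hδ3), hT1.trans (le_max_left _ _), ?_⟩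
  intro T μ hT hμ hA hδ v hv0 hv1
  have b1 : T1 ≤ T := (le_max_left _ _).trans hT
  have b2 : T2 ≤ T := ((le_max_left _ _).trans (le_max_right _ _)).trans hT
  have b3 : T3 ≤ T := ((le_max_right _ _).trans (le_max_right _ _)).trans hT
  have c1 : A1 ≤ μ * Real.log T ^ 2 := (le_max_left _ _).trans hA
  have c3 : A3 ≤ μ * Real.log T ^ 2 := (le_max_right _ _).trans hA
  have d1 : μ * Real.log T ≤ δ1 := hδ.trans (min_le_left _ _)
  have d2 : μ * Real.log T ≤ δ2 := hδ.trans ((min_le_right _ _).trans (min_le_left _ _))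
  have d3 : μ * Real.log T ≤ δ3 := hδ.trans ((min_le_right _ _).trans (min_le_right _ _))
  have hT10 : 10 ≤ T := hT1.trans b1
  have hLp : 0 < Real.log T := Real.log_pos (by linarith)
  set Δ : ℝ := μ * Real.log T with hΔ
  have hΔp : 0 < Δ := by positivity
  set M : ℝ := T * Real.log T / (2 * Real.pi) with hM
  have hMp : 0 < M := by positivity
  have hεM : 0 < ε * M := by positivity
  have hvΔ : 0 ≤ v * Δ := by positivity
  have hε'Δ : 0 < ε' * Δ := by positivity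
  refine ⟨fun S hS => ?_, ?_⟩
  · have h := two_sided (hU T μ b1 hμ c1 d1 0 v le_rfl hv0 hv1) S (by
      intro z hz
      obtain ⟨a1, a2, a3, a4⟩ := hS z hz
      have h0 := abs_nonneg z.re
      exact ⟨a1, a3, a4, by linarith, by linarith⟩)
    linarith
  · obtain ⟨S, hS, hlow⟩ := hL T μ b2 hμ d2
    refine ⟨S.filter (fun z => |z.re| ≤ v * Δ), ?_, ?_⟩
    · intro z hz
      rw [Finset.mem_filter] at hz
      obtain ⟨a1, a2, a3, a4⟩ := hS z hz.1
      exact ⟨a1, hz.2, a3, a4⟩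
    · have f1 := Finset.sum_filter_add_sum_filter_not S (fun z : ℂ => |z.re| ≤ v * Δ)
        (fun z => (analyticOrderNatAt (LL gk (-μ)) z : ℝ))
      have f2 := Finset.sum_filter_add_sum_filter_not
        (S.filter (fun z : ℂ => ¬ |z.re| ≤ v * Δ)) (fun z : ℂ => |z.re| ≤ (1 + ε') * Δ)
        (fun z => (analyticOrderNatAt (LL gk (-μ)) z : ℝ))
      have g1 := two_sided (hU T μ b1 hμ c1 d1 v 1 hv0 hv1 le_rfl)
        ((S.filter (fun z : ℂ => ¬ |z.re| ≤ v * Δ)).filter (fun z : ℂ => |z.re| ≤ (1 + ε') * Δ)) (by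
        intro z hz
        rw [Finset.mem_filter, Finset.mem_filter] at hz
        obtain ⟨a1, a2, a3, a4⟩ := hS z hz.1.1
        have h0 := not_le.1 hz.1.2
        exact ⟨a1, a3, a4, by linarith, hz.2⟩)
      have g2 := hO T μ b3 hμ c3 d3
        ((S.filter (fun z : ℂ => ¬ |z.re| ≤ v * Δ)).filter
          (fun z : ℂ => ¬ |z.re| ≤ (1 + ε') * Δ)) (by
        intro z hz
        rw [Finset.mem_filter, Finset.mem_filter] at hz
        obtain ⟨a1, a2, a3, a4⟩ := hS z hz.1.1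
        have h0 := not_le.1 hz.2
        have h5 : (1 + ε2) * Δ ≤ (1 + ε') * Δ := mul_le_mul_of_nonneg_right (by linarith) hΔp.le
        exact ⟨a1, h5.trans h0.le, a2, a3, a4⟩)
      have g3 : ε2 * (T * Real.log T) ≤ ε / 8 * M := by
        have h5 := mul_le_mul_of_nonneg_right e4 (show 0 ≤ T * Real.log T by positivity)
        refine h5.trans (le_of_eq ?_)
        rw [hM]
        field_simp
      linarith

end Pool.Agent.H807.HE
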